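import Mathlib

set_option autoImplicit false

namespace Pool.Agent.Results.MP_2d361f_co.NotSymm

/-- `exchSet M X A B` is the set `E(X; A, B)` of all `Y ⊆ B` such that `(A \ X) ∪ Y` and
`(B \ Y) ∪ X` are both bases of `M`. -/
def exchSet {α : Type} (M : Matroid α) (X A B : Set α) : Set (Set α) :=
  {Y | Y ⊆ B ∧ M.IsBase ((A \ X) ∪ Y) ∧ M.IsBase ((B \ Y) ∪ X)}

/-- `UniqueExchange M m S S'` : the base sequence `S'` of length `m` arises from the base sequence
`S` by one unique subset exchange. -/
def UniqueExchange {α : Type} (M : Matroid α) (m : ℕ) (S S' : Fin m → Set α) : Prop :=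
  ∃ i j : Fin m, i < j ∧ ∃ X Y : Set α, X ⊆ S i ∧ exchSet M X (S i) (S j) = {Y} ∧
    S' = Function.update (Function.update S i ((S i \ X) ∪ Y)) j ((S j \ Y) ∪ X)

/-- Reachability by a finite chain of unique subset exchanges (the relation `≃₃`). -/
def Reach {α : Type} (M : Matroid α) (m : ℕ) : (Fin m → Set α) → (Fin m → Set α) → Prop :=
  Relation.ReflTransGen (UniqueExchange M m)

/-! ### bit masks -/

/-- the subset of `Fin 8` coded by the binary digits of `s` -/
def mask (s : ℕ) : Set (Fin 8) := {i | s.testBit i.1 = true}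

lemma mask_inj {s s' : ℕ} (hs : s < 256) (hs' : s' < 256) (h : mask s = mask s') : s = s' := by
  apply Nat.eq_of_testBit_eq
  intro i
  by_cases hi : i < 8
  · have h1 : (⟨i, hi⟩ : Fin 8) ∈ mask s ↔ (⟨i, hi⟩ : Fin 8) ∈ mask s' := by rw [h]
    have h2 : s.testBit i = true ↔ s'.testBit i = true := h1
    rcases hb : s.testBit i with _ | _ <;> rcases hb' : s'.testBit i with _ | _ <;>
      simp [hb, hb'] at h2 ⊢
  · have hp : 256 ≤ 2 ^ i := by
      calc 256 = 2 ^ 8 := by norm_num
        _ ≤ 2 ^ i := Nat.pow_le_pow_right (by norm_num) (by omega)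
    rw [Nat.testBit_eq_false_of_lt (lt_of_lt_of_le hs hp),
      Nat.testBit_eq_false_of_lt (lt_of_lt_of_le hs' hp)]

lemma mask_surj (S : Set (Fin 8)) : ∃ s < 256, mask s = S := by
  classical
  refine ⟨Nat.ofBits (fun i : Fin 8 => decide (i ∈ S)), ?_, ?_⟩
  · exact Nat.ofBits_lt_two_pow _
  · ext i
    have := Nat.testBit_ofBits_lt (fun i : Fin 8 => decide (i ∈ S)) i.1 i.2
    unfold mask
    simp only [Set.mem_ofPred_eq]
    rw [this]
    simp

lemma mask_or (a b : ℕ) : mask a ∪ mask b = mask (a ||| b) := by
  ext i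
  simp [mask, Nat.testBit_or]

lemma mask_and (a b : ℕ) : mask a ∩ mask b = mask (a &&& b) := by
  ext i
  simp [mask, Nat.testBit_and]

lemma mask_diff (a b : ℕ) : mask a \ mask b = mask (a ^^^ (a &&& b)) := by
  ext i
  simp only [mask, Set.mem_sdiff, Set.mem_ofPred_eq, Nat.testBit_xor, Nat.testBit_and]
  cases a.testBit i.1 <;> cases b.testBit i.1 <;> simp

lemma mask_single (e : Fin 8) : mask (2 ^ e.1) = {e} := by
  ext i
  simp only [mask, Set.mem_ofPred_eq, Set.mem_singleton_iff, Nat.testBit_two_pow]
  constructor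
  · intro h
    exact (Fin.ext (by simpa using h)).symm
  · intro h
    simp [h]

/-! ### the matroid -/

/-- number of binary digits equal to one among the first eight -/
def cnt (s : ℕ) : ℕ := ((List.range 8).filter (fun i => s.testBit i)).length

/-- bases: the four element sets other than nine exceptional ones -/
def isb (s : ℕ) : Bool :=
  (cnt s == 4) && !([83, 86, 90, 114, 178, 201, 210, 226, 240].contains s)

lemma exch_check : ((List.range 256).all fun a => (List.range 256).all fun b =>
    !(isb a) || !(isb b) || ((List.range 8).all fun e => !(a.testBit e) || (b.testBit e) ||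
      ((List.range 8).any fun g => b.testBit g && !(a.testBit g) &&
        isb ((a ^^^ (a &&& 2 ^ e)) ||| 2 ^ g)))) = true := by
  decide +kernel

/-- the base predicate on sets -/
def IsB (S : Set (Fin 8)) : Prop := ∃ s < 256, isb s = true ∧ mask s = S

lemma IsB_mask {s : ℕ} (hs : s < 256) : IsB (mask s) ↔ isb s = true := by
  constructor
  · rintro ⟨s', hs', h1, h2⟩
    rw [← mask_inj hs' hs h2]
    exact h1
  · intro h
    exact ⟨s, hs, h, rfl⟩

lemma IsB_exchange : Matroid.ExchangeProperty IsB := by
  rintro _ _ ⟨a, ha, hia, rfl⟩ ⟨b, hb, hib, rfl⟩ e ⟨he1, he2⟩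
  have h := exch_check
  rw [List.all_eq_true] at h
  have h1 := h a (List.mem_range.mpr ha)
  rw [List.all_eq_true] at h1
  have h2 := h1 b (List.mem_range.mpr hb)
  simp only [hia, hib, Bool.not_true, Bool.false_or] at h2
  rw [List.all_eq_true] at h2
  have h3 := h2 e.1 (List.mem_range.mpr e.2)
  have he1' : a.testBit e.1 = true := he1
  have he2' : b.testBit e.1 = false := by
    have : ¬ b.testBit e.1 = true := he2
    simpa using this
  simp only [he1', he2', Bool.not_true, Bool.false_or] at h3
  rw [List.any_eq_true] at h3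
  obtain ⟨g, hg, hg2⟩ := h3
  rw [List.mem_range] at hg
  simp only [Bool.and_eq_true, Bool.not_eq_true'] at hg2
  obtain ⟨⟨g1, g2⟩, g3⟩ := hg2
  refine ⟨⟨g, hg⟩, ⟨g1, ?_⟩, ?_⟩
  · intro h
    have : a.testBit g = true := h
    rw [g2] at this
    exact absurd this (by simp)
  · have hlt : (a ^^^ (a &&& 2 ^ e.1)) ||| 2 ^ g < 256 := by
      have h256 : (256 : ℕ) = 2 ^ 8 := by norm_num
      rw [h256]
      apply Nat.or_lt_two_pow
      · apply Nat.xor_lt_two_pow
        · rw [← h256]; exact ha
        · apply Nat.and_lt_two_pow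
          exact Nat.pow_lt_pow_right (by norm_num) e.2
      · exact Nat.pow_lt_pow_right (by norm_num) hg
    refine ⟨_, hlt, g3, ?_⟩
    rw [← mask_or, ← mask_diff, mask_single e, show mask (2 ^ g) = {(⟨g, hg⟩ : Fin 8)} from
      mask_single ⟨g, hg⟩, Set.union_comm]
    rfl

/-- The matroid on eight elements. -/
def M : Matroid (Fin 8) :=
  Matroid.ofIsBaseOfFinite (E := Set.univ) Set.finite_univ IsB
    ⟨mask 27, 27, by norm_num, by decide +kernel, rfl⟩ IsB_exchange (fun _ _ => Set.subset_univ _)

lemma M_isBase (S : Set (Fin 8)) : M.IsBase S ↔ IsB S := Iff.rfl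

/-- the exchange condition on masks -/
def cond (a b x y : ℕ) : Bool :=
  (b &&& y == y) && isb ((a ^^^ (a &&& x)) ||| y) && isb ((b ^^^ (b &&& y)) ||| x)

lemma mem_exch {a b x y : ℕ} (ha : a < 256) (hb : b < 256) (hx : x < 256) (hy : y < 256) :
    mask y ∈ exchSet M (mask x) (mask a) (mask b) ↔ cond a b x y = true := by
  have h256 : (256 : ℕ) = 2 ^ 8 := by norm_num
  have l1 : (a ^^^ (a &&& x)) ||| y < 256 := by
    rw [h256] at *
    exact Nat.or_lt_two_pow (Nat.xor_lt_two_pow ha (Nat.and_lt_two_pow _ hx)) hy
  have l2 : (b ^^^ (b &&& y)) ||| x < 256 := by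
    rw [h256] at *
    exact Nat.or_lt_two_pow (Nat.xor_lt_two_pow hb (Nat.and_lt_two_pow _ hy)) hx
  have l3 : b &&& y < 256 := by
    rw [h256] at *
    exact Nat.and_lt_two_pow _ hy
  unfold exchSet cond
  simp only [Set.mem_ofPred_eq, M_isBase, mask_diff, mask_or, IsB_mask l1, IsB_mask l2,
    Bool.and_eq_true, beq_iff_eq, and_assoc]
  have : mask y ⊆ mask b ↔ b &&& y = y := by
    rw [← Set.inter_eq_right, mask_and]
    constructor
    · intro h; exact mask_inj l3 hy h
    · intro h; rw [h]
  rw [this]

/-- uniqueness from `(a, b)` only leads to the trivial exchanges -/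
def closedCheck (a b : ℕ) : Bool :=
  (List.range 256).all fun x => !(a &&& x == x) || ((List.range 256).all fun y =>
    !(cond a b x y) ||
    ((List.range 256).any fun y' => cond a b x y' && !(y' == y)) ||
    (((a ^^^ (a &&& x)) ||| y == 105) && ((b ^^^ (b &&& y)) ||| x == 150)) ||
    (((a ^^^ (a &&& x)) ||| y == 150) && ((b ^^^ (b &&& y)) ||| x == 105)))

lemma closed1 : closedCheck 105 150 = true := by decide +kernel

lemma closed2 : closedCheck 150 105 = true := by decide +kernel

/-- the first sequence -/
def S0 : Fin 2 → Set (Fin 8) := ![mask 27, mask 228]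

/-- the second sequence -/
def S1 : Fin 2 → Set (Fin 8) := ![mask 105, mask 150]

/-- the second sequence with its entries swapped -/
def S2 : Fin 2 → Set (Fin 8) := ![mask 150, mask 105]

lemma first_check : cond 27 228 18 96 = true ∧
    ((List.range 256).all fun y => !(cond 27 228 18 y) || y == 96) = true := by
  decide +kernel

lemma step : UniqueExchange M 2 S0 S1 := by
  refine ⟨0, 1, by decide, mask 18, mask 96, ?_, ?_, ?_⟩
  · show mask 18 ⊆ mask 27
    rw [← Set.inter_eq_left, mask_and]
    rfl
  · show exchSet M (mask 18) (mask 27) (mask 228) = {mask 96}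
    ext Y
    obtain ⟨y, hy, rfl⟩ := mask_surj Y
    rw [mem_exch (by norm_num) (by norm_num) (by norm_num) hy, Set.mem_singleton_iff]
    constructor
    · intro h
      have h1 := first_check.2
      rw [List.all_eq_true] at h1
      have h2 := h1 y (List.mem_range.mpr hy)
      simp only [h, Bool.not_true, Bool.false_or, beq_iff_eq] at h2
      rw [h2]
    · intro h
      rw [mask_inj hy (by norm_num) h]
      exact first_check.1
  · funext i
    have e0 : (mask 27 \ mask 18) ∪ mask 96 = mask 105 := by
      rw [mask_diff, mask_or]; rfl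
    have e1 : (mask 228 \ mask 96) ∪ mask 18 = mask 150 := by
      rw [mask_diff, mask_or]; rfl
    fin_cases i
    · simp [S0, S1, Function.update, e0]
    · simp [S0, S1, Function.update, e1]

lemma closed_step {a b : ℕ} (ha : a < 256) (hb : b < 256) (hc : closedCheck a b = true)
    {S : Fin 2 → Set (Fin 8)} (h : UniqueExchange M 2 ![mask a, mask b] S) :
    S = S1 ∨ S = S2 := by
  obtain ⟨i, j, hij, X, Y, hX, hE, hS⟩ := h
  have hi : i = 0 := by omega
  have hj : j = 1 := by omega
  subst hi hj
  simp only [Matrix.cons_val_zero, Matrix.cons_val_one] at hX hE hS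
  obtain ⟨x, hx, rfl⟩ := mask_surj X
  obtain ⟨y, hy, rfl⟩ := mask_surj Y
  have hmem : mask y ∈ exchSet M (mask x) (mask a) (mask b) := by rw [hE]; rfl
  have hcond := (mem_exch ha hb hx hy).mp hmem
  have hax : a &&& x = x := by
    rw [← Set.inter_eq_right, mask_and] at hX
    apply mask_inj _ hx hX
    have h256 : (256 : ℕ) = 2 ^ 8 := by norm_num
    rw [h256] at *
    exact Nat.and_lt_two_pow _ hx
  unfold closedCheck at hc
  rw [List.all_eq_true] at hc
  have h1 := hc x (List.mem_range.mpr hx)
  simp only [hax, beq_self_eq_true, Bool.not_true, Bool.false_or] at h1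
  rw [List.all_eq_true] at h1
  have h2 := h1 y (List.mem_range.mpr hy)
  have hany : ((List.range 256).any fun y' => cond a b x y' && !(y' == y)) = false := by
    rw [List.any_eq_false]
    intro y' hy'
    rw [List.mem_range] at hy'
    simp only [Bool.and_eq_true, Bool.not_eq_true', beq_eq_false_iff_ne, ne_eq, not_and, not_not]
    intro h
    have : mask y' ∈ exchSet M (mask x) (mask a) (mask b) := (mem_exch ha hb hx hy').mpr h
    rw [hE] at this
    exact mask_inj hy' hy this
  rw [hcond, hany] at h2
  simp only [Bool.not_true, Bool.false_or, Bool.or_eq_true, Bool.and_eq_true, beq_iff_eq] at h2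
  rw [hS]
  rcases h2 with ⟨g1, g2⟩ | ⟨g1, g2⟩
  · left
    funext i
    fin_cases i
    · simp [S1, Function.update, mask_diff, mask_or, hax, g1]
    · simp [S1, Function.update, mask_diff, mask_or, g2]
  · right
    funext i
    fin_cases i
    · simp [S2, Function.update, mask_diff, mask_or, hax, g1]
    · simp [S2, Function.update, mask_diff, mask_or, g2]

lemma not_back : ¬ Reach M 2 S1 S0 := by
  intro h
  have key : ∀ S, Reach M 2 S1 S → S = S1 ∨ S = S2 := by
    intro S hS
    induction hS with
    | refl => exact Or.inl rfl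
    | tail _ h ih =>
      rcases ih with ih | ih
      · rw [ih] at h
        exact closed_step (by norm_num) (by norm_num) closed1 h
      · rw [ih] at h
        exact closed_step (by norm_num) (by norm_num) closed2 h
  rcases key S0 h with h | h
  · have h0 := congrFun h 0
    have := mask_inj (by norm_num) (by norm_num) (show mask 27 = mask 105 from h0)
    norm_num at this
  · have h0 := congrFun h 0
    have := mask_inj (by norm_num) (by norm_num) (show mask 27 = mask 150 from h0)
    norm_num at this

/-- **The relation `≃₃` is not symmetric**, already for sequences of two disjoint bases of a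
matroid of rank four on eight elements: there is a unique subset exchange from `S` to `S'`, but
`S` is not reachable from `S'` by any chain of unique subset exchanges. -/
theorem result : ∃ (M : Matroid (Fin 8)) (S S' : Fin 2 → Set (Fin 8)),
    M.E = Set.univ ∧ (∀ i, M.IsBase (S i)) ∧ (∀ i, M.IsBase (S' i)) ∧
    (∀ i, (S i).ncard = 4) ∧ Disjoint (S 0) (S 1) ∧
    UniqueExchange M 2 S S' ∧ ¬ Reach M 2 S' S := by
  have hcard : ∀ s : Finset (Fin 8), ∀ n : ℕ, mask n = (s : Set (Fin 8)) → s.card = 4 →
      (mask n).ncard = 4 := by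
    intro s n h1 h2
    rw [h1, Set.ncard_coe_finset, h2]
  refine ⟨M, S0, S1, rfl, ?_, ?_, ?_, ?_, step, not_back⟩
  · intro i
    fin_cases i
    · exact ⟨27, by norm_num, by decide +kernel, rfl⟩
    · exact ⟨228, by norm_num, by decide +kernel, rfl⟩
  · intro i
    fin_cases i
    · exact ⟨105, by norm_num, by decide +kernel, rfl⟩
    · exact ⟨150, by norm_num, by decide +kernel, rfl⟩
  · intro i
    fin_cases i
    · refine hcard {0, 1, 3, 4} 27 ?_ rfl
      ext i
      fin_cases i <;> simp [mask] <;> decide
    · refine hcard {2, 5, 6, 7} 228 ?_ rfl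
      ext i
      fin_cases i <;> simp [mask] <;> decide
  · rw [Set.disjoint_iff_inter_eq_empty]
    show mask 27 ∩ mask 228 = ∅
    rw [mask_and]
    ext i
    simp [mask]

end Pool.Agent.Results.MP_2d361f_co.NotSymm
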